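import Pool.Agent.Q136.ZP.Fin

set_option autoImplicit false

/-!
# MP_b7926e_nt: Zilber-Pink for the translates of a subvariety of a torus by a finitely generated
group: the number of exceptions, with exponents which do not depend on the subvariety

Let `V` be **any** irreducible subvariety of `G_m^N` over `ℂ`, of dimension at most `M`, and
`e_1, …, e_N ∈ ℤ^n`. For `g ∈ (ℂ^×)^N` let `V_g ⊆ G_m^n` be the pullback of `V` under the map
`x ↦ (g_i x^{e_i})_i`.

* For `N = n`, `e_i` the unit vectors, `V_g = g⁻¹ V` is a translate of `V`.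
* For `V` given by `s` linear equations with disjoint sets of variables, `V_g` is the set of zeros
  in `G_m^n` of a system of `s` Laurent polynomials with arbitrary prescribed supports, and with the
  `g_i` as coefficients.

Let `Γ ⊆ ℂ^×` be generated by `γ_1, …, γ_R`, where no nontrivial product of powers of the `γ_l` is
an algebraic unit (an algebraic integer whose inverse is an algebraic integer); for instance any
`R` different prime numbers, small or large, or any `R` algebraically independent numbers. Let `Γ₀`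
be generated by arbitrary `γ₀_1, …, γ₀_r ∈ ℂ^×`. We consider the `V_g` with
`g_i = u_i ∏_l γ_l ^ k_{l,i}`, `u_1, …, u_N` arbitrary algebraic units, `k ∈ ℤ^{R × N}`.

Let `s ≥ 1` (the main case is `s = N - M`, the codimension) and `a = min (s - 1) n`. The theorem
says that for all exponents `k ∈ [-H, H]^{R × N}` with at most

  `C (2 H + 1) ^ (R (M + a) + (a + r) (n - a))`

exceptions (of `(2 H + 1) ^ (R N)` exponents), and for all algebraic units `u_i`, every irreducible
closed subvariety `W` of `V_g ∩ Z` satisfies `dim W ≤ dim Z - s`, for all torsion cosets `Z` and more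
generally for all cosets `Z` through points whose coordinates are in the division hull of the group
generated by `Γ₀` and all algebraic units. The exceptional exponents are in a finite union of images
of polynomial maps on a space of this dimension.

For `s = N - M ≤ n` this means that `V_g` has no atypical intersections, and the exponent is
`R (N - 1) + (s - 1 + r) (n - s + 1)`. So 100 per cent of the `V_g` have no atypical intersection if
the rank is `R > (s - 1 + r) (n - s + 1)`; for translates `R > (codim V - 1 + r) (dim V + 1)`, and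
for systems of `s` equations in `n` unknowns `R > (s - 1 + r) (n - s + 1)`, whatever `V` or the
supports are. For smaller `R` one gets the bound `dim W ≤ dim Z - s` for 100 per cent of the `V_g`
for all `s` with `(s - 1 + r) (n - s + 1) < R (N - M - s + 1)`.

The starting files `AlmostAllSUnitTranslates`, `ExponentialSystems` of `MP_b7926e_nt` and
`SUnitSystems` of `MP_c95b3b_ag` prove that 100 per cent of the translates by `S`-units (of the
systems with `S`-unit coefficients) have no atypical intersections if the number of primes is larger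
than `K n`, with exponent `(n - 1 / K) R + n`, where `K` depends on `V` and grows with the number of
the monomials in its equations.

Definitions in `Pool.Agent.Q136.ZP.Fin`, `Pool.Agent.Q136.ZP.Tr` and `Pool.Agent.H56R3.ZP.Geo`:
* `Laurent n = ℂ[x_1^{±1}, …, x_n^{±1}]`, and `mono m` is the monomial `x^m`;
* `AlgUnit z`: `z` and `1 / z` are integral over `ℤ`;
* `comorphism e g : Laurent N → Laurent n` is the comorphism of `x ↦ (g_i x^{e_i})_i`;
* `Allowed γ₀ z`: `z ≠ 0` and `z^k ∏ γ₀_l ^ x_l` is an algebraic unit for some `k ≥ 1`, `x_l ∈ ℤ`;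
* `NoAtypical γ₀ s J`: for every subgroup `Λ` of `ℤ^n`, every `χ : Λ → ℂ` with `Allowed` values and
  every prime ideal `W` of `Laurent n` with `J ⊆ W` and `x^m - χ m ∈ W` for `m ∈ Λ`:
  `dim W + s + rank Λ ≤ n`, where `dim W` is the transcendence degree of `Laurent n / W` over `ℂ`;
* `IndepModUnits γ`: `∏ γ_l ^ x_l` is an algebraic unit only for `x = 0`.
-/

namespace Pool.Agent.Results.MP_b7926e_nt.GroupTranslates

open H56R3.ZP Pool.Agent.Q136.ZP

/-- Roots of unity are allowed constants; so torsion cosets are among the cosets considered. -/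
theorem allowed_of_pow_eq_one {r : ℕ} (γ₀ : Fin r → ℂˣ) (k : ℕ) (hk : 0 < k) (z : ℂ)
    (hz : z ^ k = 1) : Allowed γ₀ z := by
  have hz0 : z ≠ 0 := by
    rintro rfl
    rw [zero_pow hk.ne'] at hz
    exact zero_ne_one hz
  refine ⟨hz0, k, hk, 0, ?_⟩
  have : z ^ k * ∏ l, (γ₀ l : ℂ) ^ (0 : Fin r → ℤ) l = 1 := by simp [hz]
  rw [this]
  exact ⟨isIntegral_one, by rw [inv_one]; exact isIntegral_one⟩

/-- Different prime numbers are independent modulo algebraic units. -/
theorem indepModUnits_primes {R : ℕ} (p : Fin R → ℕ) (hp : ∀ l, (p l).Prime)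
    (hinj : Function.Injective p) :
    IndepModUnits (fun l => Units.mk0 ((p l : ℕ) : ℂ) (by exact_mod_cast (hp l).ne_zero)) := by
  classical
  intro x hx
  by_contra hne
  obtain ⟨l, hl⟩ : ∃ l, x l ≠ 0 := by
    by_contra h
    push Not at h
    exact hne (funext h)
  -- the rational number
  let z : ℚ := ∏ i, (p i : ℚ) ^ x i
  have hz : ((∏ i, (Units.mk0 ((p i : ℕ) : ℂ) (by exact_mod_cast (hp i).ne_zero) : ℂˣ) ^ x i :
      ℂˣ) : ℂ) = algebraMap ℚ ℂ z := by
    rw [Units.coe_prod]
    simp only [Units.val_zpow_eq_zpow_val, Units.val_mk0, z, map_prod, map_zpow₀, map_natCast]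
  unfold AlgUnit at hx
  rw [hz, ← map_inv₀] at hx
  have hint : ∀ w : ℚ, IsIntegral ℤ (algebraMap ℚ ℂ w) → ∃ a : ℤ, (a : ℚ) = w := by
    intro w hw
    have h1 : IsIntegral ℤ w := (isIntegral_algebraMap_iff (algebraMap ℚ ℂ).injective).1 hw
    obtain ⟨a, ha⟩ := (IsIntegrallyClosed.isIntegral_iff (R := ℤ) (K := ℚ)).1 h1
    exact ⟨a, by simpa using ha⟩
  obtain ⟨a, ha⟩ := hint z hx.1
  obtain ⟨a', ha'⟩ := hint z⁻¹ hx.2
  have hp0 : ∀ i, ((p i : ℕ) : ℚ) ≠ 0 := fun i => by exact_mod_cast (hp i).ne_zero
  have hz0 : z ≠ 0 := Finset.prod_ne_zero_iff.2 fun i _ => zpow_ne_zero _ (hp0 i)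
  have haa : a * a' = 1 := by
    have : (a : ℚ) * a' = 1 := by rw [ha, ha', mul_inv_cancel₀ hz0]
    exact_mod_cast this
  have hfact : Fact (p l).Prime := ⟨hp l⟩
  have hv : padicValRat (p l) z = x l := by
    have h1 : ∀ s : Finset (Fin R), padicValRat (p l) (∏ i ∈ s, (p i : ℚ) ^ x i) =
        ∑ i ∈ s, padicValRat (p l) ((p i : ℚ) ^ x i) := by
      intro s
      induction s using Finset.induction_on with
      | empty => simp
      | insert i s hi ih =>
        rw [Finset.prod_insert hi, Finset.sum_insert hi, padicValRat.mul (zpow_ne_zero _ (hp0 i))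
          (Finset.prod_ne_zero_iff.2 fun j _ => zpow_ne_zero _ (hp0 j)), ih]
    rw [h1, Finset.sum_eq_single l]
    · rw [padicValRat.zpow, padicValRat.self (hp l).one_lt, mul_one]
    · intro i _ hi
      rw [padicValRat.zpow]
      have : padicValRat (p l) ((p i : ℕ) : ℚ) = 0 := by
        rw [padicValRat.of_nat]
        have hfact' : Fact (p i).Prime := ⟨hp i⟩
        have h3 : padicValNat (p l) (p i) = 0 := by
          rw [padicValNat_primes]
          intro h
          exact hi (hinj h.symm)
        rw [h3]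
        rfl
      rw [this, mul_zero]
    · intro h
      exact absurd (Finset.mem_univ l) h
  have hu : IsUnit a := IsUnit.of_mul_eq_one _ haa
  rcases Int.isUnit_iff.1 hu with h | h
  · rw [← ha, h] at hv
    simp at hv
    exact hl hv.symm
  · rw [← ha, h] at hv
    simp at hv
    exact hl hv.symm

/-- Zilber-Pink for the pullbacks of an arbitrary subvariety `V ⊆ G_m^N` of dimension `M` under the
monomial maps `x ↦ (g_i x^{e_i})_i` on `G_m^n` with coefficients `g_i` in a finitely generated group
of rank `R` modulo algebraic units: every irreducible `W ⊆ V_g ∩ Z` satisfies `dim W ≤ dim Z - s`,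
with at most `C (2 H + 1) ^ (R (M + a) + (a + r) (n - a))` exceptional `g` of size at most `H`,
`a = min (s - 1) n`. -/
theorem result {N n M r R : ℕ} (I : Ideal (Laurent N)) (hI : I.IsPrime)
    (hdim : Algebra.trdeg ℂ (Laurent N ⧸ I) ≤ (M : Cardinal))
    (e : Fin N → Fin n → ℤ) (γ₀ : Fin r → ℂˣ) (γ : Fin R → ℂˣ) (hγ : IndepModUnits γ)
    (s a : ℕ) (ha : a = min (s - 1) n) :
    (∃ (ι : Type) (_ : Fintype ι) (Φ : ι → Fin R × Fin N →
        MvPolynomial (Fin (R * (M + a) + (a + r) * (n - a))) ℚ),
      ∀ (k : Fin R → Fin N → ℤ) (u : Fin N → ℂˣ), (∀ i, AlgUnit (u i : ℂ)) →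
        ¬ NoAtypical γ₀ s (I.map (comorphism e (fun i => u i * ∏ l, γ l ^ k l i))) →
        ∃ (t : ι) (x : Fin (R * (M + a) + (a + r) * (n - a)) → ℚ),
          ∀ l i, (k l i : ℚ) = MvPolynomial.eval x (Φ t (l, i))) ∧
    ∃ C : ℕ, ∀ H : ℕ, Set.ncard {k : Fin R → Fin N → ℤ | (∀ l i, |k l i| ≤ H) ∧
        ∃ u : Fin N → ℂˣ, (∀ i, AlgUnit (u i : ℂ)) ∧
          ¬ NoAtypical γ₀ s (I.map (comorphism e (fun i => u i * ∏ l, γ l ^ k l i)))} ≤
      C * (2 * H + 1) ^ (R * (M + a) + (a + r) * (n - a)) := by
  classical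
  obtain ⟨ι, hι, Φ, hΦ⟩ := main_geo I hI hdim e γ₀ γ hγ s a ha
  refine ⟨⟨ι, hι, Φ, hΦ⟩, ?_⟩
  choose C hC using fun t => image_count (Φ t)
  refine ⟨∑ t, C t, fun H => ?_⟩
  set bad : Set (Fin R → Fin N → ℤ) := {k : Fin R → Fin N → ℤ | (∀ l i, |k l i| ≤ H) ∧
        ∃ u : Fin N → ℂˣ, (∀ i, AlgUnit (u i : ℂ)) ∧
          ¬ NoAtypical γ₀ s (I.map (comorphism e (fun i => u i * ∏ l, γ l ^ k l i)))} with hbad
  have hfin : bad.Finite := by
    refine (Set.Finite.pi fun _ : Fin R => Set.Finite.pi fun _ : Fin N =>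
      Set.finite_Icc (-(H : ℤ)) H).subset ?_
    rintro k ⟨hk, -⟩ l - i -
    exact Set.mem_Icc.2 (abs_le.1 (hk l i))
  let cur : (Fin R → Fin N → ℤ) → (Fin R × Fin N → ℤ) := fun k li => k li.1 li.2
  have hcur : Function.Injective cur := by
    intro k k' h
    funext l i
    exact congrFun h (l, i)
  let S : ι → Finset (Fin R × Fin N → ℤ) := fun t =>
    (hfin.toFinset.image cur).filter fun k => ∃ x : Fin (R * (M + a) + (a + r) * (n - a)) → ℚ,
      ∀ li, (k li : ℚ) = MvPolynomial.eval x (Φ t li)
  have hcover : hfin.toFinset.image cur ⊆ Finset.univ.biUnion S := by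
    intro k hk
    obtain ⟨k', hk', rfl⟩ := Finset.mem_image.1 hk
    obtain ⟨-, u, hu, hb⟩ := hfin.mem_toFinset.1 hk'
    obtain ⟨t, x, hx⟩ := hΦ k' u hu hb
    exact Finset.mem_biUnion.2 ⟨t, Finset.mem_univ _, Finset.mem_filter.2 ⟨hk, x,
      fun li => hx li.1 li.2⟩⟩
  have hS : ∀ t, (S t).card ≤ C t * (2 * H + 1) ^ (R * (M + a) + (a + r) * (n - a)) := by
    intro t
    have h1 := hC t H (S t) ?_ (fun k hk => (Finset.mem_filter.1 hk).2)
    · rwa [Fintype.card_fin] at h1
    · intro k hk i
      obtain ⟨k', hk', rfl⟩ := Finset.mem_image.1 (Finset.mem_filter.1 hk).1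
      exact (hfin.mem_toFinset.1 hk').1 i.1 i.2
  rw [Set.ncard_eq_toFinset_card _ hfin, ← Finset.card_image_of_injective _ hcur]
  refine (Finset.card_le_card hcover).trans (Finset.card_biUnion_le.trans ?_)
  rw [Finset.sum_mul]
  exact Finset.sum_le_sum fun t _ => hS t

end Pool.Agent.Results.MP_b7926e_nt.GroupTranslates
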