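import Pool.Agent.Q280.ZU.Comp

/-!
# Zilber's conjecture on atypical subvarieties of tori: the maximal excess of a failure

`V` is an irreducible closed subvariety of the torus `G_m^n` over `ℂ`, given by a prime ideal `P` of
`ℂ[x_1, …, x_n]` which does not contain `x_1 ⋯ x_n`. An irreducible closed `X ⊆ V` is atypical with excess `c` if
it lies in an algebraic subgroup `H` with `dim X ≥ dim V + dim H - n + c`. `V` is a failure with excess `c` if its
atypical subvarieties with excess `c` do not lie in finitely many proper algebraic subgroups. Every algebraic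
subgroup is a finite union of special varieties (cosets of tori by torsion points), and every special variety lies
in an algebraic subgroup of the same dimension; so Zilber's conjecture says that there is no failure with excess `1`.
-/

set_option autoImplicit false

open MvPolynomial Module Filter Pool.Agent.Q280.ZU
open scoped Topology

namespace Pool.Agent.Results.MP_b7926e_nt.MaximalExcess

/-- Zilber's conjecture up to the error `f`: for every `V` there are finitely many proper algebraic subgroups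
`x ^ a = 1` such that every irreducible closed `X ⊆ V ∩ H`, `H` an algebraic subgroup, with
`dim X > dim V + dim H - n + f n` lies in one of them. -/
def ZilberUpTo (f : ℕ → ℕ) : Prop :=
  ∀ (n : ℕ) (P : Ideal (MvPolynomial (Fin n) ℂ)), IsSubvariety P → ∃ A : Finset (Fin n → ℤ), (∀ a ∈ A, a ≠ 0) ∧
    ∀ Q, Atypical (1 + f n) P Q → ∃ a ∈ A, ∀ x ∈ points Q, ∏ i, x i ^ a i = 1

/-- The maximal excess in the torus of dimension `n`. -/
noncomputable def maxExcess (n : ℕ) : ℕ := sSup {c | ∃ P : Ideal (MvPolynomial (Fin n) ℂ), Failure c P}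

theorem zilberUpTo_iff (f : ℕ → ℕ) :
    ZilberUpTo f ↔ ∀ (n : ℕ) (P : Ideal (MvPolynomial (Fin n) ℂ)), ¬ Failure (1 + f n) P := by
  constructor
  · intro h n P hP
    obtain ⟨A, h1, h2⟩ := h n P hP.subvariety
    obtain ⟨Q, h3, h4⟩ := hP.uncovered A h1
    obtain ⟨a, ha, h5⟩ := h2 Q h3
    obtain ⟨x, hx, h6⟩ := h4 a ha
    exact h6 (h5 x hx)
  · intro h n P h1
    by_contra h3
    push Not at h3
    exact h n P ⟨h1, h3⟩

theorem mono_excess {n c c' : ℕ} (h : c ≤ c') {P : Ideal (MvPolynomial (Fin n) ℂ)} (hP : Failure c' P) :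
    Failure c P := by
  refine ⟨hP.subvariety, fun A hA => ?_⟩
  obtain ⟨Q, ⟨h1, h2, Λ, h3, h4⟩, h5⟩ := hP.uncovered A hA
  refine ⟨Q, ⟨h1, h2, Λ, h3, le_trans ?_ h4⟩, h5⟩
  gcongr

theorem excess_le {n c : ℕ} {P : Ideal (MvPolynomial (Fin n) ℂ)} (hP : Failure c P) : c ≤ n := by
  obtain ⟨Q, ⟨h1, h2, Λ, _, h4⟩, _⟩ := hP.uncovered ∅ (by simp)
  obtain ⟨d, hd, _⟩ := exists_dim hP.subvariety
  obtain ⟨d', hd', _⟩ := exists_dim h1
  have h5 := dim_anti h2
  rw [hd, hd'] at h5
  rw [hd, hd'] at h4
  have h6 : d' ≤ d := by exact_mod_cast h5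
  have h7 : d + (n - finrank ℤ Λ) + c ≤ d' + n := by exact_mod_cast h4
  omega

theorem exists_maxExcess (n : ℕ) : ∃ P : Ideal (MvPolynomial (Fin n) ℂ), Failure (maxExcess n) P := by
  have h0 : ∃ P : Ideal (MvPolynomial (Fin n) ℂ), Failure 0 P := by
    obtain ⟨P', h, _⟩ := exists_failure (κ := Empty) (m := fun j => j.elim) (c := fun j => j.elim)
      (P := fun j => j.elim) (fun j => j.elim) (N := n) (by simp)
    exact ⟨P', by simpa using h⟩
  exact Nat.sSup_mem (s := {c | ∃ P : Ideal (MvPolynomial (Fin n) ℂ), Failure c P}) ⟨0, h0⟩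
    ⟨n, fun c ⟨P, hP⟩ => excess_le hP⟩

theorem le_maxExcess {n c : ℕ} {P : Ideal (MvPolynomial (Fin n) ℂ)} (hP : Failure c P) : c ≤ maxExcess n :=
  le_csSup (s := {c | ∃ P : Ideal (MvPolynomial (Fin n) ℂ), Failure c P}) ⟨n, fun _ ⟨_, hP⟩ => excess_le hP⟩
    ⟨P, hP⟩

theorem superadditive (m n : ℕ) : maxExcess m + maxExcess n ≤ maxExcess (m + n) := by
  obtain ⟨P, hP⟩ := exists_maxExcess m
  obtain ⟨Q, hQ⟩ := exists_maxExcess n
  obtain ⟨P', h, _⟩ := exists_failure (κ := Bool) (m := fun b => bif b then m else n)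
    (c := fun b => bif b then maxExcess m else maxExcess n)
    (P := fun b => match b with
      | true => P
      | false => Q) (fun b => by
        cases b
        · exact hQ
        · exact hP) (N := m + n) (by simp)
  have h1 := le_maxExcess h
  simpa using h1

theorem zilber_iff : ZilberUpTo (fun _ => 0) ↔ ∀ n, maxExcess n = 0 := by
  rw [zilberUpTo_iff]
  constructor
  · intro h n
    obtain ⟨P, hP⟩ := exists_maxExcess n
    by_contra hne
    exact h n P (mono_excess (by omega) hP)
  · intro h n P hP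
    have := le_maxExcess hP
    rw [h n] at this
    omega

theorem exists_limit : ∃ θ : ℝ, Tendsto (fun n : ℕ => (maxExcess n : ℝ) / n) atTop (𝓝 θ) ∧
    ∀ n : ℕ, (maxExcess n : ℝ) ≤ θ * n := by
  have hsub : Subadditive fun n : ℕ => -(maxExcess n : ℝ) := by
    intro m n
    have h1 : (maxExcess m : ℝ) + maxExcess n ≤ maxExcess (m + n) := by exact_mod_cast superadditive m n
    linarith
  have hb : BddBelow (Set.range fun n : ℕ => -(maxExcess n : ℝ) / n) := by
    refine ⟨-1, ?_⟩
    rintro _ ⟨n, rfl⟩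
    simp only
    rcases Nat.eq_zero_or_pos n with hn | hn
    · subst hn
      simp
    · have hn' : (0 : ℝ) < n := by exact_mod_cast hn
      rw [le_div_iff₀ hn']
      obtain ⟨P, hP⟩ := exists_maxExcess n
      have h1 : (maxExcess n : ℝ) ≤ n := by exact_mod_cast excess_le hP
      linarith
  refine ⟨-hsub.lim, ?_, fun n => ?_⟩
  · have h1 := (hsub.tendsto_lim hb).neg
    refine h1.congr fun n => ?_
    rw [neg_div, neg_neg]
  · rcases Nat.eq_zero_or_pos n with hn | hn
    · subst hn
      obtain ⟨P, hP⟩ := exists_maxExcess 0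
      have h1 := excess_le hP
      have h2 : maxExcess 0 = 0 := by omega
      rw [h2]
      simp
    · have hn' : (0 : ℝ) < n := by exact_mod_cast hn
      have h1 := hsub.lim_le_div hb (n := n) (by omega)
      rw [le_div_iff₀ hn'] at h1
      linarith

/-- **Theorem.** (1) Failures `V_j` with excess `c_j` in the tori of dimension `m_j` give a failure with excess
`∑ c_j` and of dimension at most `∑ dim V_j` in every torus of dimension at least `∑ m_j`. (2) The maximal excess is
superadditive; the quotients `maxExcess n / n` converge to their supremum, which is `0` if and only if Zilber's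
conjecture holds. (3) Zilber's conjecture is equivalent to Zilber's conjecture up to the error `f`, if for every
`ε > 0` infinitely many `N` satisfy `f N ≤ ε N`. -/
theorem result :
    (∀ (k : ℕ) (m c : Fin k → ℕ) (P : ∀ j, Ideal (MvPolynomial (Fin (m j)) ℂ)), (∀ j, Failure (c j) (P j)) →
      ∀ N : ℕ, ∑ j, m j ≤ N → ∃ P' : Ideal (MvPolynomial (Fin N) ℂ), Failure (∑ j, c j) P' ∧
        ringKrullDim (MvPolynomial (Fin N) ℂ ⧸ P') ≤ ∑ j, ringKrullDim (MvPolynomial (Fin (m j)) ℂ ⧸ P j)) ∧
    ((∀ m n : ℕ, maxExcess m + maxExcess n ≤ maxExcess (m + n)) ∧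
      ∃ θ : ℝ, Tendsto (fun n : ℕ => (maxExcess n : ℝ) / n) atTop (𝓝 θ) ∧ (∀ n : ℕ, (maxExcess n : ℝ) ≤ θ * n) ∧
        (θ = 0 ↔ ZilberUpTo fun _ => 0)) ∧
    ∀ f : ℕ → ℕ, (∀ ε : ℝ, 0 < ε → ∃ᶠ N in atTop, (f N : ℝ) ≤ ε * N) →
      (ZilberUpTo f ↔ ZilberUpTo fun _ => 0) := by
  obtain ⟨θ, h1, h2⟩ := exists_limit
  refine ⟨fun k m c P hP N hN => exists_failure hP hN, ⟨superadditive, θ, h1, h2, ?_⟩, fun f hf => ?_⟩
  · rw [zilber_iff]
    constructor
    · rintro rfl n
      have h3 := h2 n
      rw [zero_mul] at h3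
      exact_mod_cast le_antisymm h3 (Nat.cast_nonneg _)
    · intro h
      refine tendsto_nhds_unique h1 ?_
      simp only [h, Nat.cast_zero, zero_div]
      exact tendsto_const_nhds
  · constructor
    · intro h
      rw [zilber_iff]
      rw [zilberUpTo_iff] at h
      intro n
      by_contra hne
      have hθ : 0 < θ := by
        have h3 : (1 : ℝ) ≤ maxExcess n := by exact_mod_cast Nat.one_le_iff_ne_zero.mpr hne
        have h4 := h2 n
        by_contra hθ
        have h5 : θ * n ≤ 0 := mul_nonpos_of_nonpos_of_nonneg (not_lt.mp hθ) (Nat.cast_nonneg _)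
        linarith
      have h3 : ∀ᶠ N : ℕ in atTop, θ / 2 < (maxExcess N : ℝ) / N := h1.eventually_const_lt (by linarith)
      obtain ⟨N, h4, h5, h6⟩ := ((hf (θ / 4) (by linarith)).and_eventually
        (h3.and (eventually_ge_atTop (⌈4 / θ⌉₊ + 1)))).exists
      have hN : (4 : ℝ) / θ ≤ N := (Nat.le_ceil _).trans (by exact_mod_cast (by omega : ⌈4 / θ⌉₊ ≤ N))
      have hN0 : (0 : ℝ) < N := lt_of_lt_of_le (by positivity) hN
      rw [lt_div_iff₀ hN0] at h5
      rw [div_le_iff₀ hθ] at hN
      obtain ⟨P, hP⟩ := exists_maxExcess N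
      refine h N P (mono_excess ?_ hP)
      have h7 : ((1 + f N : ℕ) : ℝ) ≤ maxExcess N := by
        push_cast
        nlinarith
      exact_mod_cast h7
    · rw [zilberUpTo_iff, zilberUpTo_iff]
      exact fun h n P hP => h n P (mono_excess (Nat.le_add_right 1 _) hP)

end Pool.Agent.Results.MP_b7926e_nt.MaximalExcess
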