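import Pool.Agent.Q170.TT.Moving
import Pool.Agent.Q170.TT.Count

/-!
# MP_b7926e_nt: no atypical intersections with cosets by the points of moving groups of finite rank,
for almost all integral members of families of subvarieties of tori with several parameters

**Families.** Let `A_1, …, A_m ⊂ ℤ^n` be arbitrary finite nonempty sets of exponents and let `c_jβ`,
`β ∈ A_j`, be complex polynomials in `t = (t_1, …, t_s)`. For `t ∈ ℂ^s` let `X_t ⊂ (ℂ^×)^n` be the
algebraic set defined by the Laurent polynomials `f_j = ∑_β c_jβ(t) x^β`, `j ≤ m` (`member`). Let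
`u_1, …, u_k` be complex polynomials in `t`, and let `Γ ⊂ ℂ` be finite. For `t ∈ ℂ^s` let `G_t` be the
group of the complex numbers which have a power in the group generated by `u_1(t), …, u_k(t)` and by
the units of the integral closure of `ℤ[Γ]` in `ℂ` (`InHull`). So the group `G_t` moves with `t`; it
contains the roots of unity, and for `k = 0` and `Γ = ∅` it is the group of the algebraic units.

**Degenerations.** Let `D_1, …, D_N` and `E_1, …, E_N` (`N ≥ 1`) be polynomials in `t` with integral
coefficients. Suppose that the polynomials `c_jβ` and `u_i` have orders along `D_l = 0` outside of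
`E_l = 0`: `c_jβ = D_l^(e_ljβ) b` with `b(t) ≠ 0` if `D_l(t) = 0 ≠ E_l(t)`, and in the same way for `u_i`
with the exponents `f_li` (`HasOrder`). Let `Trop_l` be the tropicalization of the family along
`D_l = 0`: the set of the `w ∈ ℚ^n` such that for all `j` the minimum of the numbers
`e_ljβ + β · w`, `β ∈ A_j`, is attained at least twice. Suppose that

* for every linear subspace `L` of `ℚ^n` of dimension less than `r` and all `a_1, …, a_k ∈ ℚ^n` there
  is an `l` such that the affine space `L + f_l1 a_1 + … + f_lk a_k` does not meet `Trop_l`.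

**Theorem.** There is a `Q` with the following properties.

1. For all `t ∈ ℤ^s` such that for every `l` we have `D_l(t) ≠ 0` and there is a prime `p > Q` with
   `p ∣ D_l(t)` and `p ∤ E_l(t)`: for all algebraic subgroups `H` of the torus and all points `η` of
   the torus with coordinates in `G_t`, every irreducible subset of `X_t ∩ η H` has dimension at most
   `dim H - r`. In particular (`H` the torus) all components of `X_t` have dimension at most `n - r`, and
   for the components `V` of dimension `n - r` the union `Atyp(V)` of the problem is empty.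
2. If the `D_l` are not constant and have no common factors with the `E_l` then for all `ε > 0` there
   is a `C` such that this is the case for all but at most `C H^(s - 1 + ε)` of the `(2 H + 1)^s`
   points `t ∈ ℤ^s` with `|t_j| ≤ H`.

For example (`n = 2`, `r = m = 1`, `L = 0`, `k = 1`) let `f_t` be a Laurent polynomial in two
variables and let `u` have the orders `f_l ≥ 1`. The condition says that the tropical curves
`Trop_l`, scaled by `1 / f_l`, have no common point (in the space of the `a_1 ∈ ℚ^2`): in general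
three hypersurfaces are sufficient. The conclusion is that the curve `f_t = 0` has no point at all
whose coordinates have powers which are products of units and powers of `u(t)`. So this is a theorem
about moving targets, for a moving variety: of the type Zilber-Pink and Mordell-Lang.

For `s = 1` and `k = 0` this is the theorem `FewExceptionalParameters` of the starting files. The
theorem `MP_c95b3b_ag.GenericOrders` (also of the author) is about the case `k = 0` and generic
orders, for which it proves the condition on the tropicalizations with the least number of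
hypersurfaces. Moving groups (`k ≥ 1`) are not in these results.

The proof: near to a hypersurface the valuations of the coordinates of the points of `X_t ∩ η H` give
a point of `Trop_l` on a translate of the linear space orthogonal to the relations; the translation
is given by the valuations of `η`, which are rational linear combinations of the numbers `f_li`.
-/

set_option autoImplicit false

open MvPolynomial Pool.Agent.Q170.TT

namespace Pool.Agent.Results.MP_b7926e_nt.MovingGroups

open Pool.Agent.Results.MP_b7926e_nt.NoAtypical (coset idealOf dim)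

variable {n m s k : ℕ}

/-- The tropicalization of a system with the supports `A_j` and coefficients of the orders `e_jβ`: the
points `w` of `ℚ^n` such that for all `j` the minimum of `e_jβ + β · w` is attained at two different
exponents `a, b ∈ A_j`. -/
def Trop (A : Fin m → Finset (Fin n → ℤ)) (e : Fin m → (Fin n → ℤ) → ℕ) : Set (Fin n → ℚ) :=
  {w | ∀ j, ∃ a ∈ A j, ∃ b ∈ A j, a ≠ b ∧
    (e j a : ℚ) + ∑ i, (a i : ℚ) * w i = (e j b : ℚ) + ∑ i, (b i : ℚ) * w i ∧
    ∀ β ∈ A j, (e j a : ℚ) + ∑ i, (a i : ℚ) * w i ≤ (e j β : ℚ) + ∑ i, (β i : ℚ) * w i}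

/-- `X` has no atypical intersection with the cosets of algebraic subgroups by points whose
coordinates are in the hull of the group generated by the numbers `u_j` and the units over `Γ`: every
irreducible subset `B` of `X ∩ η H` has dimension at most `dim H - r`. Here
`η H = {y | y ^ a = η ^ a for all a in Λ}` and `dim H = n - rank Λ`. -/
def NoAtypical (r : ℕ) (Γ : Set ℂ) (u : Fin k → ℂ) (X : Set (Fin n → ℂ)) : Prop :=
  ∀ (Λ : Submodule ℤ (Fin n → ℤ)) (η : Fin n → ℂ), (∀ i, InHull Γ u (η i)) →
    ∀ B : Set (Fin n → ℂ), B ⊆ X → B ⊆ coset Λ η → (idealOf B).IsPrime →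
      dim B + (r : Cardinal) + (Module.finrank ℤ Λ : Cardinal) ≤ (n : Cardinal)

/-- **Almost all integral members of families of subvarieties of tori with several parameters have no
atypical intersections with cosets by points of moving groups.** -/
theorem result {N : ℕ} (hN : 0 < N) (r : ℕ) (A : Fin m → Finset (Fin n → ℤ))
    (hA : ∀ j, (A j).Nonempty) (c : Fin m → (Fin n → ℤ) → MvPolynomial (Fin s) ℂ)
    (u : Fin k → MvPolynomial (Fin s) ℂ) (D E : Fin N → MvPolynomial (Fin s) ℤ)
    (e : Fin N → Fin m → (Fin n → ℤ) → ℕ) (f : Fin N → Fin k → ℕ)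
    (hc : ∀ l j, ∀ β ∈ A j, HasOrder (D l) (E l) (e l j β) (c j β))
    (hu : ∀ l i, HasOrder (D l) (E l) (f l i) (u i))
    (hgen : ∀ L : Submodule ℚ (Fin n → ℚ), Module.finrank ℚ L < r →
      ∀ a : Fin k → Fin n → ℚ, ∃ l, ∀ w ∈ L, w + ∑ i, (f l i : ℚ) • a i ∉ Trop A (e l))
    (Γ : Set ℂ) (hΓ : Γ.Finite) :
    ∃ Q : ℕ, (∀ t : Fin s → ℤ, (∀ l, eval t (D l) ≠ 0 ∧ ∃ p : ℕ, p.Prime ∧ Q < p ∧
        (p : ℤ) ∣ eval t (D l) ∧ ¬ (p : ℤ) ∣ eval t (E l)) →
        NoAtypical r Γ (fun i => eval (fun j => (t j : ℂ)) (u i))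
          (member A c fun j => (t j : ℂ))) ∧
      ((∀ l, 0 < (D l).totalDegree ∧ IsRelPrime (D l) (E l)) → ∀ ε : ℝ, 0 < ε → ∃ C : ℝ, 0 < C ∧
        ∀ H : ℕ, 1 ≤ H → ({t : Fin s → ℤ | (∀ j, |t j| ≤ H) ∧
          ¬ NoAtypical r Γ (fun i => eval (fun j => (t j : ℂ)) (u i))
            (member A c fun j => (t j : ℂ))}.ncard : ℝ) ≤
            C * (H : ℝ) ^ ((s : ℝ) - 1 + ε)) := by
  classical
  -- the finite set of numbers
  choose S1 hS1 hS1' using fun (l : Fin N) (x : Σ j : Fin m, {β // β ∈ A j}) =>
    (hc l x.1 x.2 x.2.2).val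
  choose S2 hS2 hS2' using fun (l : Fin N) (i : Fin k) => (hu l i).val
  let W : Set ℂ := ((⋃ l, ⋃ x, S1 l x) ∪ ⋃ l, ⋃ i, S2 l i) ∪ Γ
  have hW : W.Finite :=
    ((Set.finite_iUnion fun l => Set.finite_iUnion fun x => hS1 l x).union
      (Set.finite_iUnion fun l => Set.finite_iUnion fun i => hS2 l i)).union hΓ
  have := hW.to_subtype
  obtain ⟨Q, hQ⟩ := Pool.Agent.W466.ZC.exists_val' (k := ℂ) (fun z : W => (z : ℂ))
  have main : ∀ t : Fin s → ℤ, (∀ l, eval t (D l) ≠ 0 ∧ ∃ p : ℕ, p.Prime ∧ Q < p ∧
      (p : ℤ) ∣ eval t (D l) ∧ ¬ (p : ℤ) ∣ eval t (E l)) →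
      NoAtypical r Γ (fun i => eval (fun j => (t j : ℂ)) (u i))
        (member A c fun j => (t j : ℂ)) := by
    intro t ht
    choose hD0 p hp hpQ hpD hpE using ht
    choose V hV1 hVW _ using fun l => hQ (p l) (hp l) (hpQ l) Empty (Empty.elim : Empty → ℂ)
      (algebraicIndependent_empty_type_iff.2 (algebraMap ℂ ℂ).injective)
    have hVW' : ∀ l, ∀ z ∈ W, z ∈ V l := fun l z hz => hVW l ⟨z, hz⟩
    have hVp : ∀ l, (V l).valuation ((p l : ℕ) : ℂ) < 1 := fun l => by
      have h1 := hV1 l
      rwa [ValuationSubring.mem_nonunits_iff] at h1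
    have ht'V : ∀ l j, ((t j : ℤ) : ℂ) ∈ V l := fun l j => intCast_mem (V l) (t j)
    have hDt : ∀ l, aeval (fun j => (t j : ℂ)) (D l) = ((eval t (D l) : ℤ) : ℂ) := fun l =>
      Pool.Agent.Q170.ZP.Multi.aeval_int t (D l)
    have hVD : ∀ l, (V l).valuation (aeval (fun j => (t j : ℂ)) (D l)) < 1 := fun l => by
      rw [hDt]
      exact Pool.Agent.Q170.ZP.Multi.v_int_lt (hVp l) (hpD l)
    have hVE : ∀ l, (V l).valuation (aeval (fun j => (t j : ℂ)) (E l)) = 1 := fun l => by
      rw [Pool.Agent.Q170.ZP.Multi.aeval_int t (E l)]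
      exact Pool.Agent.Q170.ZP.Multi.v_int_one (hp l) (hVp l) (hpE l)
    have hD0' : ∀ l, aeval (fun j => (t j : ℂ)) (D l) ≠ 0 := fun l => by
      rw [hDt]
      exact_mod_cast hD0 l
    intro Λ η hη B hBX hBT hB
    refine moving hN A hA (fun j β => eval (fun j => (t j : ℂ)) (c j β))
      (fun i => eval (fun j => (t j : ℂ)) (u i)) V
      (fun l => aeval (fun j => (t j : ℂ)) (D l)) hD0' hVD e f (fun l j β hβ => ?_)
      (fun l i => ?_) (fun L hL a => ?_) Γ (fun l z hz => hVW' l z (Or.inr hz)) Λ η hη B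
      (fun x hx => hBX hx) hBT hB
    · exact hS1' l ⟨j, β, hβ⟩ (V l) (fun z hz => hVW' l z (Or.inl (Or.inl
        (Set.mem_iUnion.2 ⟨l, Set.mem_iUnion.2 ⟨_, hz⟩⟩)))) _ (ht'V l) (hVD l) (hVE l)
    · exact hS2' l i (V l) (fun z hz => hVW' l z (Or.inl (Or.inr
        (Set.mem_iUnion.2 ⟨l, Set.mem_iUnion.2 ⟨_, hz⟩⟩)))) _ (ht'V l) (hVD l) (hVE l)
    · obtain ⟨l, hl⟩ := hgen L hL fun i j => a j i
      refine ⟨l, fun w hw hcon => hl w hw ?_⟩
      have h1 : (w + ∑ i, (f l i : ℚ) • fun j => a j i) =
          fun i => w i + ∑ j, a i j * f l j := by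
        funext i
        rw [Pi.add_apply, Finset.sum_apply]
        congr 1
        refine Finset.sum_congr rfl fun j _ => ?_
        rw [Pi.smul_apply, smul_eq_mul, mul_comm]
      rw [h1]
      intro j
      obtain ⟨a', ha, b, hb, hab, h2, h3⟩ := hcon j
      refine ⟨a', ha, b, hb, hab, ?_, fun β hβ => ?_⟩
      · exact_mod_cast h2
      · exact_mod_cast h3 β hβ
  refine ⟨Q, main, fun hDE ε hε => ?_⟩
  obtain ⟨C, hC, hcount⟩ := count hN D E hDE Q ε hε
  refine ⟨C, hC, fun H hH => le_trans ?_ (hcount H hH)⟩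
  have hfin : {t : Fin s → ℤ | (∀ j, |t j| ≤ H) ∧ ¬ ∀ l, eval t (D l) ≠ 0 ∧
      ∃ p : ℕ, p.Prime ∧ Q < p ∧ (p : ℤ) ∣ eval t (D l) ∧ ¬ (p : ℤ) ∣ eval t (E l)}.Finite :=
    (Finset.finite_toSet (Pool.Agent.Q170.ZP.Count.box s H)).subset fun t ht =>
      Pool.Agent.Q170.ZP.Count.mem_box.2 ht.1
  have hsub : {t : Fin s → ℤ | (∀ j, |t j| ≤ H) ∧
      ¬ NoAtypical r Γ (fun i => eval (fun j => (t j : ℂ)) (u i))
        (member A c fun j => (t j : ℂ))} ⊆ {t : Fin s → ℤ | (∀ j, |t j| ≤ H) ∧
      ¬ ∀ l, eval t (D l) ≠ 0 ∧ ∃ p : ℕ, p.Prime ∧ Q < p ∧ (p : ℤ) ∣ eval t (D l) ∧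
        ¬ (p : ℤ) ∣ eval t (E l)} := fun t ht => ⟨ht.1, fun h => ht.2 (main t h)⟩
  exact_mod_cast Set.ncard_le_ncard hsub hfin

end Pool.Agent.Results.MP_b7926e_nt.MovingGroups
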