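import Pool.Agent.Q84.NX.Fam3
import Pool.Agent.Results.MP_b7926e_nt.FewExceptionalParameters

/-!
# No atypical intersections for all members of a family at the parameters related to the primes of a string

Let `X_t` be a one-parameter family of subvarieties of the torus as in the starting result `FewExceptionalParameters`
(supports `A_j`, coefficients `c_jβ ∈ ℂ[t]`, algebraic numbers `α_l` with tropicalizations in general position with
respect to subspaces of dimension less than `r`, a finite set `Γ` of complex numbers), `0 ≤ ρ < 1` and `K > 0`. There is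
`c₁ > 0`, for all `κ > 0` and `m'` there is `c' > 0` and for every `Z` a number `D` with the following property. For every
large `X` there is a set `S` of at most `(log X) ^ (49 / 50)` primes, all larger than `Z`, such that for EVERY function
`f` with values `1` and `-1` on the primes at least `X ^ (1 - κ)` integers `n'`, `X < n' ≤ 3X`, satisfy: the interval
`[n', n' + D]` contains at least `m'` primes, and for every prime `p` in it

* the Legendre symbol `(p / q)` is `f q` for all odd primes `q ≤ c' log X` outside `S`;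
* for ALL rational numbers `t ≠ 0` with denominator `≤ p ^ ρ` and `|numerator| ≤ p ^ K` whose numerator has a divisor
  within `p ^ c₁` of a positive multiple of `p` (for instance: it is divisible by `p`) the set `X_t` has no atypical
  intersection with the cosets of algebraic subgroups by points whose coordinates are units over `Γ`, in particular with
  the torsion cosets.

Method: the starting result counts the exceptional parameters; the divisor bound; few primes divide a number near a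
divisor of an exceptional numerator (`Q84/NX/Core`, `Q84/NX/TriJ`); the Maynard-Tao theorem relative to a modulus which is
a small power of `X`, in the form that it avoids arbitrary exceptional sets of size `X ^ (1 - η)` (`Q84/MB/E1-E4`), gives
the strings.
-/

set_option autoImplicit false

open scoped Classical

namespace Pool.Agent.Results.MP_b7926e_nt.StringsOfPrimes

open Finset Filter
open Pool.Agent.Results.MP_b7926e_nt.FewExceptionalParameters (member order Trop NoAtypical)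

variable {n m : ℕ}

/-- for all rational `t ≠ 0` with denominator `≤ p ^ ρ` and `|numerator| ≤ p ^ K` whose numerator has a divisor `r'`
within `p ^ c₁` of a positive multiple of `p`, the member `X_t` of the family has no atypical intersections -/
def Fine (r : ℕ) (Γ : Set ℂ) (A : Fin m → Finset (Fin n → ℤ)) (c : Fin m → (Fin n → ℤ) → Polynomial ℂ)
    (ρ K c₁ : ℝ) (p : ℕ) : Prop :=
  ∀ (t : ℚ) (k r' : ℕ), t ≠ 0 → (t.den : ℝ) ≤ (p : ℝ) ^ ρ → (t.num.natAbs : ℝ) ≤ (p : ℝ) ^ K → 1 ≤ k →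
    |(r' : ℝ) - k * p| ≤ (p : ℝ) ^ c₁ → r' ∣ t.num.natAbs → NoAtypical r Γ (member A c (t : ℂ))

/-- the number of the exceptional parameters with bounded numerator and denominator -/
theorem count (Q : ℚ → Prop) (C s : ℕ) (hC : ∀ B v : ℕ, 2 ≤ B → v ≤ B → ∀ T : Finset ℚ,
      (∀ t ∈ T, t.den = v ∧ |t.num| ≤ B ∧ Q t) → (T.card : ℝ) ≤ C * Real.log B ^ s) (V B : ℕ) (hB : 2 ≤ B)
    (hV : V ≤ B) : {t : ℚ | t.den ≤ V ∧ t.num.natAbs ≤ B ∧ Q t}.Finite ∧
      ({t : ℚ | t.den ≤ V ∧ t.num.natAbs ≤ B ∧ Q t}.ncard : ℝ) ≤ V * (C * Real.log B ^ s) := by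
  have hfin : {t : ℚ | t.den ≤ V ∧ t.num.natAbs ≤ B ∧ Q t}.Finite := by
    refine Set.Finite.of_injOn (f := fun x : ℚ => (x.num, x.den))
      (t := (((Icc (-(B : ℤ)) B) ×ˢ (Icc 0 V) : Finset (ℤ × ℕ)) : Set (ℤ × ℕ))) ?_ ?_ (finite_toSet _)
    · rintro x ⟨h1, h2, -⟩
      rw [mem_coe, mem_product, mem_Icc, mem_Icc]
      show (-(B : ℤ) ≤ x.num ∧ x.num ≤ B) ∧ (0 ≤ x.den ∧ x.den ≤ V)
      exact ⟨⟨by omega, by omega⟩, Nat.zero_le _, h1⟩
    · intro x _ y _ h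
      simp only [Prod.mk.injEq] at h
      exact Rat.ext h.1 h.2
  refine ⟨hfin, ?_⟩
  rw [Set.ncard_eq_toFinset_card _ hfin]
  have hmaps : ∀ t ∈ hfin.toFinset, t.den ∈ Icc 1 V := by
    intro t ht
    rw [Set.Finite.mem_toFinset] at ht
    exact mem_Icc.2 ⟨t.den_pos, ht.1⟩
  rw [card_eq_sum_card_fiberwise hmaps]
  push_cast
  calc ∑ v ∈ Icc 1 V, ((hfin.toFinset.filter fun t => t.den = v).card : ℝ)
      ≤ ∑ _v ∈ Icc 1 V, (C * Real.log B ^ s : ℝ) := by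
        refine sum_le_sum fun v hv => ?_
        rw [mem_Icc] at hv
        refine hC B v hB (hv.2.trans hV) _ fun t ht => ?_
        rw [mem_filter, Set.Finite.mem_toFinset] at ht
        obtain ⟨⟨-, h2, h3⟩, h4⟩ := ht
        refine ⟨h4, ?_, h3⟩
        rw [Int.abs_eq_natAbs]
        exact_mod_cast h2
    _ = V * (C * Real.log B ^ s) := by rw [sum_const, Nat.card_Icc, nsmul_eq_mul, Nat.add_sub_cancel]

/-- **Theorem.** -/
theorem result {M : ℕ} (r : ℕ) (A : Fin m → Finset (Fin n → ℤ)) (hA : ∀ j, (A j).Nonempty)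
    (c : Fin m → (Fin n → ℤ) → Polynomial ℂ) (hc : ∀ j, ∀ β ∈ A j, c j β ≠ 0)
    (α : Fin M → ℂ) (hα : ∀ l, IsAlgebraic ℚ (α l))
    (hgen : ∀ L : Submodule ℚ (Fin n → ℚ), Module.finrank ℚ L < r →
      ∃ l, ∀ w ∈ L, w ∉ Trop A (order c (α l)))
    (Γ : Set ℂ) (hΓ : Γ.Finite) (ρ K : ℝ) (hρ : 0 ≤ ρ) (hρ1 : ρ < 1) (hK : 0 < K) : ∃ c₁ : ℝ, 0 < c₁ ∧
    ∀ κ : ℝ, 0 < κ → ∀ m' : ℕ, ∃ c' : ℝ, 0 < c' ∧
    ∀ Z : ℕ, ∃ D : ℕ, ∃ X₀ : ℝ, ∀ X : ℝ, X₀ ≤ X →
    ∃ S : Finset ℕ, (∀ q ∈ S, q.Prime ∧ Z < q) ∧ (S.card : ℝ) ≤ (Real.log X) ^ (49 / 50 : ℝ) ∧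
    ∀ f : ℕ → ℤ, (∀ q, f q = 1 ∨ f q = -1) →
      X ^ (1 - κ) ≤ (((Icc 1 ⌊3 * X⌋₊).filter fun n' : ℕ => X < n' ∧
        m' ≤ ((Icc n' (n' + D)).filter Nat.Prime).card ∧
        ∀ p ∈ Icc n' (n' + D), p.Prime → Fine r Γ A c ρ K c₁ p ∧
          ∀ q : ℕ, q.Prime → q ≠ 2 → (q : ℝ) ≤ c' * Real.log X → q ∉ S → jacobiSym p q = f q).card : ℝ) := by
  obtain ⟨C, s, hC⟩ := FewExceptionalParameters.result r A hA c hc α hα hgen Γ hΓ
  obtain ⟨Q, hQ⟩ : ∃ Q : ℚ → Prop, Q = fun t : ℚ => t ≠ 0 ∧ ¬ NoAtypical r Γ (member A c (t : ℂ)) := ⟨_, rfl⟩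
  have hC' : ∀ B v : ℕ, 2 ≤ B → v ≤ B → ∀ T : Finset ℚ,
      (∀ t ∈ T, t.den = v ∧ |t.num| ≤ B ∧ Q t) → (T.card : ℝ) ≤ C * Real.log B ^ s := by
    intro B v hB hv T hT
    refine hC B v hB hv T fun t ht => ?_
    obtain ⟨h1, h2, h3⟩ := hT t ht
    rw [hQ] at h3
    exact ⟨h1, h2, h3.2⟩
  obtain ⟨K', hK'⟩ : ∃ K' : ℝ, K' = max K 1 := ⟨_, rfl⟩
  have hK'K : K ≤ K' := by rw [hK']; exact le_max_left _ _
  have hK'1 : 1 ≤ K' := by rw [hK']; exact le_max_right _ _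
  obtain ⟨σ, hσ⟩ : ∃ σ : ℝ, σ = (1 - ρ) / (2 * (K' * (s + 1))) := ⟨_, rfl⟩
  have hσ0 : 0 < σ := by rw [hσ]; exact div_pos (by linarith) (by positivity)
  have hσK : K' * (σ * s) ≤ (1 - ρ) / 2 := by
    have h1 : K' * (σ * (s + 1)) = (1 - ρ) / 2 := by
      rw [hσ]
      field_simp
    have h2 : K' * (σ * s) ≤ K' * (σ * (s + 1)) := by
      apply mul_le_mul_of_nonneg_left _ (by linarith)
      apply mul_le_mul_of_nonneg_left _ hσ0.le
      linarith
    linarith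
  obtain ⟨γ, hγ⟩ : ∃ γ : ℝ, γ = ρ + K' * (σ * s) := ⟨_, rfl⟩
  have hγ0 : 0 ≤ γ := by rw [hγ]; positivity
  have hγ1 : 1 * γ < 1 := by rw [one_mul, hγ]; linarith
  obtain ⟨J, hJ⟩ := exists_nat_ge K
  obtain ⟨E, hE⟩ : ∃ E : ℝ → Set ℚ, E = fun P : ℝ =>
    {t : ℚ | 1 ≤ P ∧ (t.den : ℝ) ≤ P ^ ρ ∧ (t.num.natAbs : ℝ) ≤ P ^ K ∧ Q t} := ⟨_, rfl⟩
  have hmono : ∀ P P' : ℝ, P ≤ P' → E P ⊆ E P' := by
    intro P P' hPP t ht
    rw [hE] at ht ⊢
    obtain ⟨h1, h2, h3, h4⟩ := ht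
    exact ⟨h1.trans hPP, h2.trans (Real.rpow_le_rpow (by linarith) hPP hρ),
      h3.trans (Real.rpow_le_rpow (by linarith) hPP hK.le), h4⟩
  have hsize : ∀ P : ℝ, 1 ≤ P → ∀ t ∈ E P, 1 ≤ t.num.natAbs ∧ ((t.num.natAbs : ℕ) : ℝ) ≤ P ^ (J + 1) := by
    intro P hP t ht
    rw [hE] at ht
    obtain ⟨-, -, h3, h4⟩ := ht
    rw [hQ] at h4
    refine ⟨Int.natAbs_pos.2 (Rat.num_ne_zero.2 h4.1), h3.trans ?_⟩
    calc P ^ K ≤ P ^ ((J + 1 : ℕ) : ℝ) := Real.rpow_le_rpow_of_exponent_le hP (by push_cast; linarith)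
      _ = P ^ (J + 1) := Real.rpow_natCast P (J + 1)
  have hcount : ∀ P : ℝ, 1 ≤ P → (E P).Finite ∧ ((E P).ncard : ℝ) ≤ (C * (2 ^ σ / σ) ^ s) * P ^ γ := by
    intro P hP
    have hP0 : 0 < P := by linarith
    have hPρ : 1 ≤ P ^ ρ := Real.one_le_rpow hP hρ
    have hPK : 1 ≤ P ^ K' := Real.one_le_rpow hP (by linarith)
    obtain ⟨V, hV⟩ : ∃ V, V = ⌊P ^ ρ⌋₊ := ⟨_, rfl⟩
    obtain ⟨B, hB⟩ : ∃ B, B = ⌊2 * P ^ K'⌋₊ := ⟨_, rfl⟩
    have hVr : (V : ℝ) ≤ P ^ ρ := by rw [hV]; exact Nat.floor_le (by linarith)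
    have hBr : (B : ℝ) ≤ 2 * P ^ K' := by rw [hB]; exact Nat.floor_le (by linarith)
    have hB2 : 2 ≤ B := by
      rw [hB]
      refine Nat.le_floor ?_
      push_cast
      linarith
    have hρK : P ^ ρ ≤ P ^ K' := Real.rpow_le_rpow_of_exponent_le hP (by linarith)
    have hKK : P ^ K ≤ P ^ K' := Real.rpow_le_rpow_of_exponent_le hP hK'K
    have hVB : V ≤ B := by
      rw [hV, hB]
      exact Nat.floor_le_floor (by linarith)
    obtain ⟨h1, h2⟩ := count Q C s hC' V B hB2 hVB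
    have hsub : E P ⊆ {t : ℚ | t.den ≤ V ∧ t.num.natAbs ≤ B ∧ Q t} := by
      intro t ht
      rw [hE] at ht
      obtain ⟨-, h3, h4, h5⟩ := ht
      refine ⟨?_, ?_, h5⟩
      · rw [hV]
        exact Nat.le_floor h3
      · rw [hB]
        refine Nat.le_floor ?_
        linarith
    refine ⟨h1.subset hsub, ?_⟩
    have h3 : ((E P).ncard : ℝ) ≤ ({t : ℚ | t.den ≤ V ∧ t.num.natAbs ≤ B ∧ Q t}.ncard : ℝ) := by
      exact_mod_cast Set.ncard_le_ncard hsub h1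
    have hB0 : (1 : ℝ) ≤ B := by exact_mod_cast (by omega : 1 ≤ B)
    have hlog : Real.log B ≤ (2 ^ σ / σ) * P ^ (K' * σ) := by
      calc Real.log B ≤ (B : ℝ) ^ σ / σ := Real.log_le_rpow_div (by linarith) hσ0
        _ ≤ (2 * P ^ K') ^ σ / σ := by
            apply div_le_div_of_nonneg_right _ hσ0.le
            exact Real.rpow_le_rpow (by linarith) hBr hσ0.le
        _ = (2 ^ σ / σ) * P ^ (K' * σ) := by
            rw [Real.mul_rpow (by norm_num) (by linarith), ← Real.rpow_mul hP0.le]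
            ring
    have hlogs : Real.log B ^ s ≤ (2 ^ σ / σ) ^ s * P ^ (K' * (σ * s)) := by
      calc Real.log B ^ s ≤ ((2 ^ σ / σ) * P ^ (K' * σ)) ^ s := pow_le_pow_left₀ (Real.log_nonneg hB0) hlog s
        _ = (2 ^ σ / σ) ^ s * P ^ (K' * (σ * s)) := by
            rw [mul_pow, ← Real.rpow_natCast (P ^ (K' * σ)) s, ← Real.rpow_mul hP0.le]
            congr 2
            ring
    calc ((E P).ncard : ℝ) ≤ V * (C * Real.log B ^ s) := h3.trans h2
      _ ≤ P ^ ρ * (C * ((2 ^ σ / σ) ^ s * P ^ (K' * (σ * s)))) := by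
          apply mul_le_mul hVr _ (by
            have := Real.log_nonneg hB0
            positivity) (by linarith)
          exact mul_le_mul_of_nonneg_left hlogs (Nat.cast_nonneg C)
      _ = (C * (2 ^ σ / σ) ^ s) * (P ^ ρ * P ^ (K' * (σ * s))) := by ring
      _ = (C * (2 ^ σ / σ) ^ s) * P ^ γ := by rw [← Real.rpow_add hP0, hγ]
  obtain ⟨c₁, hc₁, hc4, hmain⟩ := Pool.Agent.Q84.NX.obj_strings E hmono (fun t : ℚ => t.num.natAbs) (J + 1) (by omega) 1
    hsize 1 γ (C * (2 ^ σ / σ) ^ s) one_pos hγ0 hγ1 hcount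
  refine ⟨c₁, hc₁, fun κ hκ m' => ?_⟩
  obtain ⟨c', hc', h⟩ := hmain κ hκ m'
  refine ⟨c', hc', fun Z => ?_⟩
  obtain ⟨D, X₀, hX₀⟩ := h Z
  refine ⟨D, X₀, fun X hX => ?_⟩
  obtain ⟨S, hS1, hS2, hS3⟩ := hX₀ X hX
  refine ⟨S, hS1, hS2, fun f hf => (hS3 f hf).trans ?_⟩
  rw [Nat.cast_le]
  apply card_le_card
  intro n' hn'
  rw [mem_filter] at hn' ⊢
  obtain ⟨hn'1, hn'2, hn'3, hn'4⟩ := hn'
  refine ⟨hn'1, hn'2, hn'3, fun p hp hpp => ⟨?_, (hn'4 p hp hpp).2⟩⟩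
  have hgood := (hn'4 p hp hpp).1
  have hp1 : (1 : ℝ) ≤ p := by exact_mod_cast hpp.one_lt.le
  intro t k r' ht hden hnum hk hkr hr
  by_contra hcon
  refine hgood t ?_ k r' hk hkr hr
  rw [hE, Real.rpow_one, hQ]
  exact ⟨hp1, hden, hnum, ht, hcon⟩

end Pool.Agent.Results.MP_b7926e_nt.StringsOfPrimes
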